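import Mathlib
import Pool.Agent.Helper81K1.LP.Fin

set_option autoImplicit false

/-!
# Odd perfect numbers: `log N ≤ C ω(N) P ^ (1 / 2 + ε)` for the largest prime factor `P` of `N`

Let `N` be an odd perfect number all of whose prime factors are at most `Y`. Then
`log N ≤ C ω(N) Y ^ (1 / 2 + ε)`; so the average exponent of `N` is at most `C Y ^ (1 / 2 + ε)`, and,
since `ω(N) ≤ Y`, the largest prime factor of `N` is at least `(log N) ^ (2 / 3 - ε)` if `N` is large
(`LP.two_thirds`). (The exponent `1` in the place of `1 / 2` is easy: if `q ^ e ∥ N`, then `σ(q ^ e)` has a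
prime factor which is `1` modulo `e + 1`, so `e < Y`, and `log N ≤ ω(N) Y log Y`.)

Proof.  For prime factors `q` and `r` of `N` let `W(q, r)` be the logarithm of the power of `r` in
`σ(q ^ e)`, `q ^ e ∥ N`.  The sum of the `W(q, r)` over `q` is `μ(r) = log (r ^ a)`, `r ^ a ∥ N`, and the
sum over `r` is about `μ(q)`; so `W` is a flow with equal inflow and outflow `μ` at each node.

* (`dom`) If `q₁, …, q_J ≤ Y` are primes with `q_i ^ (r - 1) = 1` modulo `r ^ k`, then all the products
  `∏ q_i ^ a_i < r ^ k` lie in a group of order `r - 1`.  So for every `r` there is at most one `q`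
  with `W(q, r)` larger than about `Y ^ (1 / 2)`, and the number of the `q` with `W(q, r) > Y ^ ε` is
  bounded.  Together with a bound for the number of the `r` which are `1` modulo a large divisor of
  `e + 1` this shows that all the `W(q, r)` which are not dominating are together at most
  `ω(N) Y ^ (1 / 2 + ε)` (`rho_bound`).
* (`flow`) If `log N` is much larger than this, then the flow along the dominating pairs is almost
  everything.  Since every `r` has at most one dominating `q`, a comparison of the entropies
  (`∑ μ log μ` is the same before and after the flow) gives a `q` such that `W(q, r)` is nearly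
  `μ(q)` for one `r`.  So `σ(q ^ e) = m r ^ v` with `log m ≤ μ(q) / (log Y) ^ C` (`exists_edge`).
* (`TL`) But `q ^ n = m r ^ v + 1` implies `v ≤ C log m (log (q r v)) ^ 16`.  By Dirichlet's theorem
  one can write `(q ^ n, r ^ v) = (q ^ (k u + n₀), r ^ (k w + v₀))` with `n₀` and `v₀` small compared with
  `k`, and then it is a linear form in the two logarithms of `q ^ u / r ^ w` and
  `m r ^ v₀ / q ^ n₀`, for which interpolation determinants give a bound which is linear in the
  heights of both numbers (`two_log_core`).
-/

namespace Pool.Agent.Results.MP_f02ea4_nt.LogBoundOmegaSqrt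

/-- **Main theorem.**  For `ε > 0` there is `C` such that `log N ≤ C ω(N) Y ^ (1 / 2 + ε)` for all odd
perfect numbers `N` and all `Y` not smaller than the largest prime factor of `N`. -/
theorem result (ε : ℝ) (hε : 0 < ε) :
    ∃ C : ℝ, 0 < C ∧ ∀ N : ℕ, Odd N → Nat.Perfect N → ∀ Y : ℕ, (∀ p ∈ N.primeFactors, p ≤ Y) →
      Real.log N ≤ C * N.primeFactors.card * (Y : ℝ) ^ (1 / 2 + ε) :=
  Pool.Agent.Helper81K1.LP.log_bound ε hε

end Pool.Agent.Results.MP_f02ea4_nt.LogBoundOmegaSqrt
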