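import Mathlib
import Pool.Agent.Helper81K1.LR.Pot4

set_option autoImplicit false

/-!
# The size of an odd perfect number, the number of its prime factors and the largest one

For every odd perfect number `N` with `ω` distinct prime factors, all at most `Z`, `Z ≥ 73`, we have
`(log log N) ^ 2 ≤ 25000 (1 + log ω) log Z log log Z`. So if `N` has few prime factors, then the largest one is very
large: `log P ≥ c x ^ 2 / ((1 + log ω) log x)` for `P ≤ exp (x ^ 2)`, `x = log log N`; and if `P ≤ (log N) ^ A` then
`ω ≥ exp (c x / log x)`.

Proof.  Let `v(q, r)` be the power of the prime `r` in `σ(q ^ e)`, and let `n = e + 1`. Let all prime factors be at most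
`Z`, and all but at most `b` of them at most `Y`.

(1) Many targets: if `U` is a set of fewer than `d` primes, then
`n ≤ (16 · 10 ^ 9 d ^ 6 y ^ 5) ^ (2 d) y (2 + ∑ v(q, r))`, where `r` runs through the prime factors outside `U` and
`y ≥ log Z`. For otherwise `q ^ n = m ∏ r ^ (v r) + 1` with fewer than `d` primes `r` and with a small `m`.  By Dirichlet's
theorem on simultaneous approximation the exponents `n, v r` are near to a multiple `k (w, u r)` of a vector with
small entries, so that `(q ^ w / ∏ r ^ (u r)) ^ k` is very near to a rational number of small height, in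
contradiction to an estimate for linear forms in two logarithms (`LP.two_log`, with an interpolation determinant),
which is sharp if one of the numbers is a high power.

(2) Few sources: for each prime factor `r ≤ Y` at most `J` of the primes `q ≤ Y` have `v(q, r) > V`,
`V = (J Y ^ (1 / J) + 1) y`: the products of more primes `q` would give too many elements of order dividing `r - 1` modulo
a high power of `r`.

(3) Let `s > 0` be small. By (1), with `d = 3 J G + b`, the sum of the `v(q, r) ^ s`, `v(q, r) > V`, over the prime factors
`r ≤ Y` is at least `3 J n ^ s`, if `n` is large. By (2) the sum over `q` is at most `J (v_r(N) + 1) ^ s`.  So the sum of the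
numbers `n ^ s` over the large `n` is at most the sum over the other `n`, and for all `J ≥ 1`, `G ≥ 2` and `q ≤ Y`
`log e ≤ (log Y) / J + log ω + 400 (1 + log ω / log G) (J G + b) log log Z`.
-/

namespace Pool.Agent.Results.MP_f02ea4_nt.LogLogSquaredBound

/-- **Theorem.** Let `N` be an odd perfect number with `ω` distinct prime factors, all at most `Z`, `Z ≥ 73`. Then
`(log log N) ^ 2 ≤ 25000 (1 + log ω) log Z log log Z`. -/
theorem result : ∀ N : ℕ, Odd N → Nat.Perfect N → ∀ Z : ℕ, 73 ≤ Z → (∀ p ∈ N.primeFactors, p ≤ Z) →
    Real.log (Real.log N) ^ 2 ≤
      25000 * (1 + Real.log N.primeFactors.card) * Real.log Z * Real.log (Real.log Z) :=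
  fun _ hodd hperf Z h73 hZ => Pool.Agent.Helper81K1.LR.main_N ⟨hodd, hperf⟩ Z h73 hZ

end Pool.Agent.Results.MP_f02ea4_nt.LogLogSquaredBound
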