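import Mathlib
import Pool.Agent.Helper81K1.LQ.Second

set_option autoImplicit false

/-!
# The second largest prime factor of an odd perfect number is at least `(log N) ^ (2 / 3 - ε)`

Let `N` be an odd perfect number, `L = log N` and `Y = L ^ (2 / 3 - ε)`. We show that `N` has at least two
prime factors `> Y` if `N` is large, and more generally at least `t` of them, for any `t`, unless `N` has
two large prime factors `p` and `p'` of different size: `L ^ (1 / 3) < log p ≤ L ^ (2 / 3) < log p'`.

Proof.  As in `LargestPrimeTwoThirds` let `W(q, r)` be the logarithm of the power of `r` in `σ(q ^ e)`,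
`q ^ e ∥ N`.  Suppose that fewer than `t` prime factors are `> Y`.

* By the linear forms argument of `EveryLargestPrime` all but at most `t` prime factors `q ≤ Y` have
  an exponent at most `Y (log L) ^ M`; let `S` be the set of these `q` (`params`). A descent (due to
  Heath-Brown and Nielsen) shows that the part of `N` composed of `S` is at least `N ^ c`, `c > 0`
  (`mass`).
* If the flow `B` from outside into `S` is at most `L ^ (1 - δ)`, then the entropy argument can be
  carried out inside `S` (`flow2`, `rho_bound2`, `exists_edge2`), and gives `q, r ∈ S` such that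
  `σ(q ^ e)` is nearly a power of `r`; the estimate for two logarithms excludes this (`no_edge2`).
* A prime factor `b` outside `S` with `log b ≤ L ^ (2 / 3)` sends at most `L ^ (1 - δ)` to `S`:
  the small divisors `d` of `n = e + 1` send at most `Y ^ (1 / 2) log b` for each `d`, and the large ones
  only meet few primes `r = 1` modulo `d`, with at most `Y ^ (1 + ε)` each (`out_bound`, `hub_out`).
* A prime factor `b` with `log b ≤ L ^ (1 / 3)` receives at most `L ^ (1 - δ)` from `S`, since only few
  primes `q ≤ Y` have a small order modulo a high power of `b` (`in_bound`, `hub_in`); and one with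
  `log b > L ^ (2 / 3)` receives nothing from `S`, as `σ(q ^ e)` is smaller than `b` (`in_zero`).
  The flow into `S` is not larger than the flow out of `S` (`balance`).  So `B` is small in this case too.
-/

namespace Pool.Agent.Results.MP_f02ea4_nt.SecondLargestTwoThirds

/-- **Main theorem.**  Let `ε > 0` and let `t` be a natural number. Every sufficiently large odd perfect
number `N` has at least `t` prime factors larger than `(log N) ^ (2 / 3 - ε)`, or it has at least two of
them, and there are prime factors `p` and `p'` with
`(log N) ^ (1 / 3) < log p ≤ (log N) ^ (2 / 3) < log p'`. (So, with `t = 2`, it always has at least two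
prime factors larger than `(log N) ^ (2 / 3 - ε)`.) -/
theorem result (ε : ℝ) (hε : 0 < ε) (t : ℕ) : ∃ N₀ : ℕ, ∀ N ≥ N₀, Odd N → Nat.Perfect N →
    t ≤ (N.primeFactors.filter (fun p : ℕ => (Real.log N) ^ (2 / 3 - ε) < (p : ℝ))).card ∨
    (2 ≤ (N.primeFactors.filter (fun p : ℕ => (Real.log N) ^ (2 / 3 - ε) < (p : ℝ))).card ∧
      ∃ p ∈ N.primeFactors, ∃ p' ∈ N.primeFactors, (Real.log N) ^ (1 / 3 : ℝ) < Real.log p ∧
        Real.log p ≤ (Real.log N) ^ (2 / 3 : ℝ) ∧ (Real.log N) ^ (2 / 3 : ℝ) < Real.log p') :=
  Pool.Agent.Helper81K1.LQ.final ε hε t

end Pool.Agent.Results.MP_f02ea4_nt.SecondLargestTwoThirds
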